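import Pool.Agent.Lib.MP_984cf2_lc.Main

/-!
# Free solvable groups are logically homogeneous (language of groups)

The first-order language of groups `(·, ⁻¹, 1)`, the group as a structure for it, types of tuples.
-/

set_option autoImplicit false

namespace Pool.Agent.Results.MP_984cf2_lc.GroupLanguage

open FirstOrder

/-- The function symbols of the language of groups: a constant, a unary and a binary symbol. -/
inductive GroupSymbol : ℕ → Type
  | one : GroupSymbol 0
  | inv : GroupSymbol 1
  | mul : GroupSymbol 2

/-- The first-order language of groups; it has no relation symbols (equality is logical). -/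
def groupLang : Language := ⟨GroupSymbol, fun _ => Empty⟩

/-- A group as a structure for the language of groups. -/
abbrev groupStructure (G : Type) [Group G] : groupLang.Structure G where
  funMap := fun {_} s =>
    match s with
    | GroupSymbol.one => fun _ => 1
    | GroupSymbol.inv => fun x => (x 0)⁻¹
    | GroupSymbol.mul => fun x => x 0 * x 1
  RelMap := fun {_} r => Empty.elim r

/-- The formula `φ(x_1, ..., x_n)` holds in `G` at the tuple `μ`. -/
def Holds {G : Type} [Group G] {n : ℕ} (φ : groupLang.Formula (Fin n)) (μ : Fin n → G) : Prop :=
  @Language.Formula.Realize groupLang G (groupStructure G) (Fin n) φ μ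

/-- The tuples have the same type: they satisfy the same first-order formulas. -/
def SameType {G : Type} [Group G] {n : ℕ} (μ₁ μ₂ : Fin n → G) : Prop :=
  ∀ φ : groupLang.Formula (Fin n), Holds φ μ₁ ↔ Holds φ μ₂

/-- Some automorphism of `G` maps the tuple `μ₁` onto `μ₂`. -/
def SameOrbit {G : Type} [Group G] {n : ℕ} (μ₁ μ₂ : Fin n → G) : Prop :=
  ∃ σ : G ≃* G, ∀ i, σ (μ₁ i) = μ₂ i

/-- Logical homogeneity. -/
def LogicallyHomogeneous (G : Type) [Group G] : Prop :=
  ∀ n : ℕ, 1 ≤ n → ∀ μ₁ μ₂ : Fin n → G, SameType μ₁ μ₂ → SameOrbit μ₁ μ₂

/-- The free solvable group of rank `r` and derived length `d`. -/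
abbrev FreeSolvable (r d : ℕ) : Type := FreeGroup (Fin r) ⧸ derivedSeries (FreeGroup (Fin r)) d

/-! ### translation of formulas -/

/-- product of a list of terms -/
def prodTerm {α : Type} : List (groupLang.Term α) → groupLang.Term α
  | [] => Language.Term.func (l := 0) GroupSymbol.one ![]
  | t :: l => Language.Term.func (l := 2) GroupSymbol.mul ![t, prodTerm l]

theorem realize_prodTerm {α G : Type} [Group G] (v : α → G) (l : List (groupLang.Term α)) :
    @Language.Term.realize groupLang G (groupStructure G) α v (prodTerm l) =
      (l.map fun t => @Language.Term.realize groupLang G (groupStructure G) α v t).prod := by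
  let _ := groupStructure G
  induction l with
  | nil => rfl
  | cons t l ih =>
    rw [List.map_cons, List.prod_cons, ← ih]
    rfl

/-- translation of terms -/
def trTerm {α : Type} : MP984.LG.Term α → groupLang.Term α
  | Language.Term.var a => Language.Term.var a
  | Language.Term.func f ts =>
    match f with
    | true => prodTerm (List.ofFn fun i => trTerm (ts i))
    | false => Language.Term.func (l := 1) GroupSymbol.inv
        ![prodTerm (List.ofFn fun i => trTerm (ts i))]

theorem realize_trTerm {α G : Type} [Group G] (v : α → G) (t : MP984.LG.Term α) :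
    @Language.Term.realize groupLang G (groupStructure G) α v (trTerm t) =
      @Language.Term.realize MP984.LG G (MP984.gstr G) α v t := by
  let _ := groupStructure G
  let _ := MP984.gstr G
  induction t with
  | var a => rfl
  | func f ts ih =>
    have h : ((List.ofFn fun i => trTerm (ts i)).map fun t =>
        @Language.Term.realize groupLang G (groupStructure G) α v t) =
        List.ofFn fun i => @Language.Term.realize MP984.LG G (MP984.gstr G) α v (ts i) := by
      rw [List.map_ofFn]
      congr 1
      funext i
      exact ih i
    cases f with
    | true =>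
      show @Language.Term.realize groupLang G (groupStructure G) α v
        (prodTerm (List.ofFn fun i => trTerm (ts i))) = _
      rw [realize_prodTerm, h]
      rfl
    | false =>
      show (@Language.Term.realize groupLang G (groupStructure G) α v
        (prodTerm (List.ofFn fun i => trTerm (ts i))))⁻¹ = _
      rw [realize_prodTerm, h]
      rfl

/-- translation of formulas -/
def trForm {α : Type} : ∀ {n : ℕ}, MP984.LG.BoundedFormula α n → groupLang.BoundedFormula α n
  | _, Language.BoundedFormula.falsum => Language.BoundedFormula.falsum
  | _, Language.BoundedFormula.equal t₁ t₂ =>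
    Language.BoundedFormula.equal (trTerm t₁) (trTerm t₂)
  | _, Language.BoundedFormula.rel r _ => Empty.elim r
  | _, Language.BoundedFormula.imp f₁ f₂ =>
    Language.BoundedFormula.imp (trForm f₁) (trForm f₂)
  | _, Language.BoundedFormula.all f => Language.BoundedFormula.all (trForm f)

theorem realize_trForm {α G : Type} [Group G] {n : ℕ} (φ : MP984.LG.BoundedFormula α n)
    (v : α → G) (xs : Fin n → G) :
    @Language.BoundedFormula.Realize groupLang G (groupStructure G) α n (trForm φ) v xs ↔
      @Language.BoundedFormula.Realize MP984.LG G (MP984.gstr G) α n φ v xs := by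
  let _ := groupStructure G
  let _ := MP984.gstr G
  induction φ with
  | falsum => exact Iff.rfl
  | equal t₁ t₂ =>
    show (_ = _) ↔ (_ = _)
    rw [realize_trTerm, realize_trTerm]
  | rel r ts => exact Empty.elim r
  | imp f₁ f₂ ih₁ ih₂ =>
    exact imp_congr (ih₁ _) (ih₂ _)
  | all f ih =>
    show (∀ a : G, _) ↔ (∀ a : G, _)
    exact forall_congr' fun a => ih _

theorem holds_trForm {G : Type} [Group G] {n : ℕ} (φ : MP984.LG.Formula (Fin n)) (μ : Fin n → G) :
    Holds (trForm φ) μ ↔
      @Language.Formula.Realize MP984.LG G (MP984.gstr G) (Fin n) φ μ :=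
  realize_trForm φ μ default

/-- For all `r, d ≥ 1` the free solvable group of rank `r` and derived length `d` is logically
homogeneous. -/
theorem result : ∀ r d : ℕ, 1 ≤ r → 1 ≤ d → LogicallyHomogeneous (FreeSolvable r d) :=
  fun r d _ _ n _ μ₁ μ₂ h => MP984.main r d n μ₁ μ₂ fun φ =>
    (holds_trForm φ μ₁).symm.trans ((h (trForm φ)).trans (holds_trForm φ μ₂))

end Pool.Agent.Results.MP_984cf2_lc.GroupLanguage
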